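import Pool.Agent.helper11.VQ.Spec3c

/-!
# Row vq:QFM: measurability of the packet coefficients
-/

set_option autoImplicit false

open scoped MatrixGroups ContDiff Topology UpperHalfPlane ComplexConjugate ENNReal
open UpperHalfPlane MeasureTheory Filter Set

namespace Pool.Agent.VQ

open Pool.Agent.RS

noncomputable section

theorem QFM_cd : Continuous cd := by
  unfold cd
  refine Continuous.div ?_ ?_ (fun z h => ?_)
  · exact continuous_const.mul (UpperHalfPlane.continuous_coe.sub continuous_const)
  · exact UpperHalfPlane.continuous_coe.add continuous_const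
  · have h1 := congrArg Complex.im h
    rw [Complex.add_im, Complex.I_im, Complex.zero_im] at h1
    have h2 : 0 < (z : ℂ).im := z.im_pos
    linarith

theorem QFM_b0 {ch : ℝ → ℝ} (hch : CH ch) (ζ R : ℝ) : Continuous (b0 ch ζ R) := by
  unfold b0
  have hn : Continuous fun v : ℂ => ‖v‖ ^ 2 := continuous_norm.pow 2
  refine Continuous.mul ?_ ?_
  · exact Real.continuous_exp.comp (((continuous_const.mul hn).div_const 2).neg)
  · exact hch.smooth.continuous.comp (continuous_const.mul hn)

theorem QFM_cont {U : ℍ → ℝ} (hU : Continuous U) {ch : ℝ → ℝ} (hch : CH ch) (ζ R : ℝ) :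
    Continuous (fun x : (SL(2, ℝ) × ℝ) × ℍ => Gp U ch ζ R x.1 x.2) := by
  have h1 : Continuous fun x : (SL(2, ℝ) × ℝ) × ℍ => cd (x.1.1⁻¹ • x.2) :=
    QFM_cd.comp ((continuous_fst.fst.inv).smul continuous_snd)
  have h2 : Continuous fun x : (SL(2, ℝ) × ℝ) × ℍ => rho U x.1.2 x.1.1 :=
    Real.continuous_sqrt.comp ((hU.comp (continuous_fst.fst.smul continuous_const)).add (continuous_const.mul continuous_fst.snd))
  have h3 : Continuous fun x : (SL(2, ℝ) × ℝ) × ℍ => (cd (x.1.1⁻¹ • x.2)).re := Complex.continuous_re.comp h1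
  have h4 : Continuous fun x : (SL(2, ℝ) × ℝ) × ℍ => cR ch ζ R * b0 ch ζ R (cd (x.1.1⁻¹ • x.2)) :=
    continuous_const.mul ((QFM_b0 hch ζ R).comp h1)
  have h5 : Continuous fun x : (SL(2, ℝ) × ℝ) × ℍ => R * rho U x.1.2 x.1.1 * (cd (x.1.1⁻¹ • x.2)).re :=
    (continuous_const.mul h2).mul h3
  exact (Complex.continuous_ofReal.comp h4).mul
    (Complex.continuous_exp.comp ((Complex.continuous_ofReal.comp h5).mul continuous_const))

theorem QFM_proof : QFM_stmt := by
  intro U ch ζ R φ hU hch hφ
  have : SecondCountableTopology (Matrix (Fin 2) (Fin 2) ℝ) :=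
    inferInstanceAs (SecondCountableTopology (Fin 2 → Fin 2 → ℝ))
  have : SecondCountableTopology SL(2, ℝ) :=
    (Matrix.SpecialLinearGroup.isClosedEmbedding_val (n := Fin 2) (R := ℝ)).isEmbedding.secondCountableTopology
  have hc : Continuous (Function.uncurry fun (p : SL(2, ℝ) × ℝ) (z : ℍ) => φ z * conj (Gp U ch ζ R p z)) :=
    (hφ.comp continuous_snd).mul (Complex.continuous_conj.comp (QFM_cont hU hch ζ R))
  have hm := hc.stronglyMeasurable.integral_prod_right (ν := (volume : Measure ℍ))
  exact hm.measurable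

end

end Pool.Agent.VQ
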