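import Pool.Agent.helper74.VQ.SpecE

set_option autoImplicit false

open scoped MatrixGroups ContDiff Topology UpperHalfPlane ComplexConjugate ENNReal
open UpperHalfPlane MeasureTheory Filter Set

namespace Pool.Agent.VQ

open Pool.Agent.RS

noncomputable section

/-- parameters -/
theorem VAM_par (K C : ℝ) (A : Prm) (hK : 8 ≤ K) (hC : K ^ 2 ≤ C) (h : Adm C A) :
    0 < A.z ∧ A.z ≤ A.z1 ∧ A.z1 ≤ 1 / K ∧ 0 < A.z2 ∧ A.z2 ≤ 1 / 64 ∧ K * ((A.m : ℝ) * A.e3) ≤ 1 / K ∧ K * A.z1 ≤ A.z2 ∧ (1 : ℝ) ≤ A.m := by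
  have hK0 : (0 : ℝ) < K := by linarith
  have hK64 : 64 ≤ K ^ 2 := by nlinarith
  have hC1 : 64 ≤ C := le_trans hK64 hC
  have hKC : K ≤ C := by nlinarith
  have hm : (1 : ℝ) ≤ A.m := by exact_mod_cast h.m
  have h1 := h.z
  have h2 := h.z1
  have h3 := h.z2
  have h4 := h.up
  have h5 := h.e3
  have hz : 0 < A.z := by nlinarith
  have hz1 : 0 < A.z1 := by nlinarith
  have hz2 : 0 < A.z2 := by nlinarith
  have hzz : A.z ≤ A.z1 := by nlinarith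
  have hzz2 : A.z1 ≤ A.z2 := by nlinarith
  have hmz : A.z2 ≤ A.m * A.z2 := by nlinarith
  have hCz2 : C * A.z2 ≤ 1 := by nlinarith
  have hz2' : A.z2 ≤ 1 / 64 := by nlinarith
  have hCm : C * ((A.m : ℝ) * A.e3) ≤ 1 := by
    have a1 : (A.m : ℝ) * (C * A.e3) ≤ A.m * A.z := mul_le_mul_of_nonneg_left h1 (by linarith)
    have a2 : (A.m : ℝ) * A.z ≤ A.m * A.z2 := mul_le_mul_of_nonneg_left (by linarith) (by linarith)
    have a3 : (A.m : ℝ) * A.z2 ≤ 1 := by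
      have : (A.m : ℝ) * A.z2 ≤ C * (A.m * A.z2) := by nlinarith [mul_pos (by linarith : (0 : ℝ) < A.m) hz2]
      linarith
    nlinarith
  have hme : 0 < (A.m : ℝ) * A.e3 := mul_pos (by linarith) h5
  refine ⟨hz, hzz, ?_, hz2, hz2', ?_, ?_, hm⟩
  · rw [le_div_iff₀ hK0]
    nlinarith
  · rw [le_div_iff₀ hK0]
    have : K ^ 2 * ((A.m : ℝ) * A.e3) ≤ C * ((A.m : ℝ) * A.e3) := mul_le_mul_of_nonneg_right hC hme.le
    nlinarith
  · have : K * A.z1 ≤ C * A.z1 := mul_le_mul_of_nonneg_right hKC hz1.le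
    linarith

theorem VAM_adm (C C' : ℝ) (A : Prm) (hC : 1 ≤ C) (hCC : C' ≤ C) (h : Adm C A) : Adm C' A := by
  have h1 := h.z
  have h2 := h.z1
  have h3 := h.z2
  have h4 := h.up
  have h5 := h.e3
  have hm : (1 : ℝ) ≤ A.m := by exact_mod_cast h.m
  have hz : 0 < A.z := by nlinarith
  have hz1 : 0 < A.z1 := by nlinarith
  have hz2 : 0 < A.z2 := by nlinarith
  refine ⟨h.e3, h.m, ?_, ?_, ?_, ?_, h.tu⟩
  · exact le_trans (mul_le_mul_of_nonneg_right hCC h5.le) h1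
  · exact le_trans (mul_le_mul_of_nonneg_right hCC hz.le) h2
  · exact le_trans (mul_le_mul_of_nonneg_right hCC hz1.le) h3
  · exact le_trans (mul_le_mul_of_nonneg_right hCC (mul_nonneg (by linarith) hz2.le)) h4

theorem VAM_mt {X : Type} [MeasurableSpace X] (μ : Measure X) (u v ψ : X → ℂ) (a e : ℝ) (ha : 0 ≤ a) (he : 0 ≤ e)
    (hu : Measurable u) (hv : Measurable v) (hψ : Measurable ψ) (hua : ∫⁻ x, ‖u x‖ₑ ∂μ ≤ ENNReal.ofReal a)
    (hvb : ∃ b : ℝ, ∀ x, ‖v x‖ ≤ b) (hψb : ∃ b : ℝ, ∀ x, ‖ψ x‖ ≤ b) (h : ∀ x, u x ≠ 0 → ‖v x - ψ x‖ ≤ e) :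
    ‖(∫ x, u x * v x ∂μ) - ∫ x, u x * ψ x ∂μ‖ ≤ a * e := by
  obtain ⟨b1, hb1⟩ := hvb
  obtain ⟨b2, hb2⟩ := hψb
  have hui : Integrable u μ := ⟨hu.aestronglyMeasurable, lt_of_le_of_lt hua ENNReal.ofReal_lt_top⟩
  have i1 : Integrable (fun x => u x * v x) μ := hui.mul_bdd hv.aestronglyMeasurable (Eventually.of_forall hb1)
  have i2 : Integrable (fun x => u x * ψ x) μ := hui.mul_bdd hψ.aestronglyMeasurable (Eventually.of_forall hb2)
  rw [← integral_sub i1 i2]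
  have hb : ∀ x, ‖u x * v x - u x * ψ x‖ ≤ ‖u x‖ * e := by
    intro x
    rw [← mul_sub, norm_mul]
    rcases eq_or_ne (u x) 0 with h0 | h0
    · rw [h0]; simp
    · exact mul_le_mul_of_nonneg_left (h x h0) (norm_nonneg _)
  have h1 := norm_integral_le_of_norm_le (hui.norm.mul_const e) (Eventually.of_forall hb)
  refine h1.trans ?_
  rw [integral_mul_const]
  refine mul_le_mul_of_nonneg_right ?_ he
  rw [integral_norm_eq_lintegral_enorm hu.aestronglyMeasurable]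
  exact ENNReal.toReal_le_of_le_ofReal ha hua

theorem VAM_int (f g : ℍ → ℂ) (hf : Continuous f) (hg : Continuous g) (b : ℝ) (w : ℍ) (hb : ∀ z, g z ≠ 0 → dist w z ≤ b) :
    Integrable (fun z => conj (f z) * g z) := by
  refine Continuous.integrable_of_hasCompactSupport ((Complex.continuous_conj.comp hf).mul hg) ?_
  refine HasCompactSupport.of_support_subset_isCompact (isCompact_closedBall w b) ?_
  intro z hz
  rw [Metric.mem_closedBall, dist_comm]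
  apply hb z
  intro h0
  apply hz
  show conj (f z) * g z = 0
  rw [h0, mul_zero]

theorem VAM_intg (g : ℍ → ℂ) (hg : Continuous g) (b : ℝ) (w : ℍ) (hb : ∀ z, g z ≠ 0 → dist w z ≤ b) : Integrable g := by
  have h := VAM_int (fun _ => 1) g continuous_const hg b w hb
  simpa using h

theorem VAM_bd (f g : ℍ → ℂ) (c : ℝ) (hg : Integrable g) (h : ∀ z, ‖f z‖ ≤ c) :
    ‖∫ z : ℍ, conj (f z) * g z‖ ≤ c * ∫ z : ℍ, ‖g z‖ := by
  rw [← integral_const_mul]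
  refine norm_integral_le_of_norm_le (hg.norm.const_mul c) (Eventually.of_forall fun z => ?_)
  rw [norm_mul, Complex.norm_conj]
  exact mul_le_mul_of_nonneg_right (h z) (norm_nonneg _)

theorem VAM_nb (r s : ℝ) (hrs : r ≤ s) (p q : SL(2, ℝ) × ℝ) (h : Nb r p q) : Nb s p q := by
  refine ⟨?_, lt_of_lt_of_le h.2 hrs⟩
  rcases h.1 with h1 | h1
  · exact Or.inl fun i j => lt_of_lt_of_le (h1 i j) hrs
  · exact Or.inr fun i j => lt_of_lt_of_le (h1 i j) hrs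

theorem VAM_num (m : ℕ) : ∃ R0 : ℝ, 1 ≤ R0 ∧ ∀ R : ℝ, R0 ≤ R → 65536 ≤ R ∧ ((m : ℝ) + 1) ≤ R ^ (3 / 200 : ℝ) ∧ 8 * ((m : ℝ) + 1) ≤ R ^ (1 / 8 : ℝ) := by
  have h1 := (tendsto_rpow_atTop (by norm_num : (0 : ℝ) < 3 / 200)).eventually_ge_atTop ((m : ℝ) + 1)
  have h2 := (tendsto_rpow_atTop (by norm_num : (0 : ℝ) < 1 / 8)).eventually_ge_atTop (8 * ((m : ℝ) + 1))
  obtain ⟨R0, h⟩ := eventually_atTop.mp ((h1.and h2).and (eventually_ge_atTop (65536 : ℝ)))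
  exact ⟨max 1 R0, le_max_left _ _, fun R hR => ⟨(h R (le_trans (le_max_right _ _) hR)).2, (h R (le_trans (le_max_right _ _) hR)).1.1, (h R (le_trans (le_max_right _ _) hR)).1.2⟩⟩

theorem VAM_us (D : Dyn) (ch : ℝ → ℝ) (A : Prm) (R : ℝ) (p x : SL(2, ℝ) × ℝ) (h : us D ch A R p x ≠ 0) :
    x ∈ GW 2 R ∧ |p.2 - x.2| < A.r R := by
  unfold us at h
  split_ifs at h with hc
  · exact ⟨⟨mem_univ _, hc.2.1⟩, hc.2.2.2⟩
  · exact absurd rfl h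

theorem VAM_core (D : Dyn) (ch : ℝ → ℝ) (A : Prm) (R a b : ℝ) (J : ℕ → SL(2, ℝ) × ℝ → SL(2, ℝ) × ℝ → ℂ) (ha : 1 ≤ a) (hb : 0 ≤ b) (hr : 0 ≤ A.r R)
    (hW : 31 / 16 * R ^ (-(1 / 4) : ℝ) ≤ 2 * R ^ (-(1 / 4) : ℝ))
    (h1 : Measurable (Function.uncurry (us D ch A R))) (h2 : ∀ k, Measurable (Function.uncurry (usm D ch A R k)) ∧ ∃ c : ℝ, ∀ x y, ‖usm D ch A R k x y‖ ≤ c)
    (h3 : ∀ p, ∫⁻ q, ‖us D ch A R p q‖ₑ ∂mP ≤ ENNReal.ofReal a)
    (h4 : ∀ k q, k ≤ A.m → q ∈ GW 2 R → ∃ ψ : SL(2, ℝ) × ℝ → ℂ, Measurable ψ ∧ (∃ c : ℝ, ∀ x, ‖ψ x‖ ≤ c) ∧ ∀ x ∈ GW 2 R, ψ x = J k x q)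
    (h5 : ∀ k p q, k + 1 ≤ A.m → p.2 ∈ Wi (31 / 16) R → q ∈ GW 2 R → ‖(∫ x, us D ch A R p x * J k x q ∂mP) - J (k + 1) p q‖ ≤ b)
    (h6 : ∀ p q, p ∈ GW 2 R → q ∈ GW 2 R → ‖pr D ch A R p q - J 0 p q‖ ≤ b) :
    ∀ k : ℕ, k ≤ A.m → ∀ p q, |p.2| + k * A.r R ≤ 31 / 16 * R ^ (-(1 / 4) : ℝ) → q ∈ GW 2 R → ‖usm D ch A R k p q - J k p q‖ ≤ (k + 1) * a ^ k * b := by
  intro k
  induction k with
  | zero =>
    intro _ p q hp hq
    have hp' : p ∈ GW 2 R := by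
      refine ⟨mem_univ _, ?_⟩
      have : |p.2| ≤ 2 * R ^ (-(1 / 4) : ℝ) := by
        simp only [Nat.cast_zero, zero_mul, add_zero] at hp
        linarith
      exact abs_le.mp this
    have h7 := h6 p q hp' hq
    have e0 : usm D ch A R 0 p q = pr D ch A R p q := rfl
    rw [e0]
    simpa using h7
  | succ k ih =>
    intro hk p q hp hq
    obtain ⟨ψ, hψm, hψb, hψ⟩ := h4 k q (by omega) hq
    have hcast : ((k + 1 : ℕ) : ℝ) = (k : ℝ) + 1 := by push_cast; ring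
    rw [hcast] at hp
    have hk0 : (0 : ℝ) ≤ (k : ℝ) := Nat.cast_nonneg k
    have hak : 1 ≤ a ^ k := one_le_pow₀ ha
    have he : (0 : ℝ) ≤ ((k : ℝ) + 1) * a ^ k * b := by positivity
    have hpw : p.2 ∈ Wi (31 / 16) R := by
      have : |p.2| ≤ 31 / 16 * R ^ (-(1 / 4) : ℝ) := by
        have : 0 ≤ ((k : ℝ) + 1) * A.r R := by positivity
        linarith
      exact abs_le.mp this
    have hx : ∀ x, us D ch A R p x ≠ 0 → ‖usm D ch A R k x q - ψ x‖ ≤ ((k : ℝ) + 1) * a ^ k * b := by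
      intro x hx0
      obtain ⟨hxW, hxr⟩ := VAM_us D ch A R p x hx0
      rw [hψ x hxW]
      refine ih (by omega) x q ?_ hq
      have : |x.2| ≤ |p.2| + A.r R := by
        have h1 : |x.2| - |p.2| ≤ |x.2 - p.2| := abs_sub_abs_le_abs_sub _ _
        rw [abs_sub_comm] at h1
        linarith
      nlinarith
    have hmt := VAM_mt mP (fun x => us D ch A R p x) (fun x => usm D ch A R k x q) ψ a (((k : ℝ) + 1) * a ^ k * b) (by linarith) he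
      (h1.comp measurable_prodMk_left) ((h2 k).1.comp measurable_prodMk_right) hψm (h3 p)
      (by obtain ⟨c, hc⟩ := (h2 k).2; exact ⟨c, fun x => hc x q⟩) hψb hx
    have heq : (∫ x, us D ch A R p x * ψ x ∂mP) = ∫ x, us D ch A R p x * J k x q ∂mP := by
      refine integral_congr_ae (Eventually.of_forall fun x => ?_)
      show us D ch A R p x * ψ x = us D ch A R p x * J k x q
      rcases eq_or_ne (us D ch A R p x) 0 with h0 | h0
      · rw [h0, zero_mul, zero_mul]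
      · rw [hψ x (VAM_us D ch A R p x h0).1]
    have hmt : ‖(∫ x, us D ch A R p x * usm D ch A R k x q ∂mP) - ∫ x, us D ch A R p x * ψ x ∂mP‖ ≤ a * (((k : ℝ) + 1) * a ^ k * b) := hmt
    rw [heq] at hmt
    have h5' := h5 k p q hk hpw hq
    have hus : usm D ch A R (k + 1) p q = ∫ x, us D ch A R p x * usm D ch A R k x q ∂mP := rfl
    rw [hus, hcast]
    have htri : ‖(∫ x, us D ch A R p x * usm D ch A R k x q ∂mP) - J (k + 1) p q‖ ≤ a * (((k : ℝ) + 1) * a ^ k * b) + b := by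
      have := norm_add_le ((∫ x, us D ch A R p x * usm D ch A R k x q ∂mP) - ∫ x, us D ch A R p x * J k x q ∂mP) ((∫ x, us D ch A R p x * J k x q ∂mP) - J (k + 1) p q)
      rw [sub_add_sub_cancel] at this
      linarith
    refine htri.trans ?_
    have hak1 : 1 ≤ a ^ (k + 1) := one_le_pow₀ ha
    have : b ≤ a ^ (k + 1) * b := by nlinarith
    have h7 : a * (((k : ℝ) + 1) * a ^ k * b) = ((k : ℝ) + 1) * a ^ (k + 1) * b := by rw [pow_succ]; ring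
    rw [h7]
    nlinarith

theorem VAM_pw (R x y : ℝ) (hR : 65536 ≤ R) (hxy : x ≤ y) : R ^ x ≤ R ^ y := Real.rpow_le_rpow_of_exponent_le (by linarith) hxy

theorem VAM_q (R : ℝ) (hR : 65536 ≤ R) : R ^ (-(1 / 4) : ℝ) ≤ 1 / 16 := by
  have h0 : (0 : ℝ) < R := by linarith
  have h1 : (16 : ℝ) ≤ R ^ (1 / 4 : ℝ) := by
    have : (16 : ℝ) = (65536 : ℝ) ^ (1 / 4 : ℝ) := by
      rw [show (65536 : ℝ) = 16 ^ (4 : ℝ) by norm_num, ← Real.rpow_mul (by norm_num)]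
      norm_num
    rw [this]
    exact Real.rpow_le_rpow (by norm_num) hR (by norm_num)
  rw [Real.rpow_neg h0.le]
  rw [show (1 / 16 : ℝ) = (16 : ℝ)⁻¹ by norm_num]
  exact inv_anti₀ (by norm_num) h1

theorem VAM_base (D : Dyn) (ch : ℝ → ℝ) (A : Prm) (R ζ2 b : ℝ) (p q : SL(2, ℝ) × ℝ) (hR : 65536 ≤ R)
    (hb : b = R ^ (15 / 8 : ℝ)) (hfl : ∀ E g, D.fl E 0 g = g) (hp : p ∈ GW 2 R) (hq : q ∈ GW 2 R)
    (cG : ∀ x, Continuous (Gp D.U ch A.z R x)) (w : ℍ) (c : ℝ) (sG : ∀ z, Gp D.U ch A.z R q z ≠ 0 → dist w z ≤ c)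
    (cpsi : Continuous (psi D ch A.z ζ2 R 0 p)) (nG : ∫ z : ℍ, ‖Gp D.U ch A.z R q z‖ ≤ 8 * R ^ (1 / 2 : ℝ))
    (hnb : ¬Nb (A.r R) p q → ‖∫ z : ℍ, conj (Gp D.U ch A.z R p z) * Gp D.U ch A.z R q z‖ ≤ 1)
    (hpk : ∀ v, ‖pv D ch A.z ζ2 R 0 p v - fG D ch A.z R p v‖ ≤ 1) :
    ‖pr D ch A R p q - ∫ z : ℍ, conj (psi D ch A.z ζ2 R 0 p z) * Gp D.U ch A.z R q z‖ ≤ b := by
  have h0 : (0 : ℝ) < R := by linarith
  have s1 : ‖pr D ch A R p q - ∫ z : ℍ, conj (Gp D.U ch A.z R p z) * Gp D.U ch A.z R q z‖ ≤ 1 := by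
    unfold pr
    split_ifs with hc
    · rw [sub_self, norm_zero]; norm_num
    · rw [zero_sub, norm_neg]
      exact hnb fun h => hc ⟨hp.2, hq.2, h⟩
  have iG := VAM_intg _ (cG q) c w sG
  have s2 : ‖(∫ z : ℍ, conj (Gp D.U ch A.z R p z) * Gp D.U ch A.z R q z) - ∫ z : ℍ, conj (psi D ch A.z ζ2 R 0 p z) * Gp D.U ch A.z R q z‖ ≤ 1 * ∫ z : ℍ, ‖Gp D.U ch A.z R q z‖ := by
    rw [← integral_sub (VAM_int _ _ (cG p) (cG q) c w sG) (VAM_int _ _ cpsi (cG q) c w sG)]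
    have := VAM_bd (fun z => Gp D.U ch A.z R p z - psi D ch A.z ζ2 R 0 p z) _ 1 iG (fun z => by
      have hz := hpk (cd (p.1⁻¹ • z))
      rw [norm_sub_rev]
      have e1 : psi D ch A.z ζ2 R 0 p z = pv D ch A.z ζ2 R 0 p (cd (p.1⁻¹ • z)) := by
        unfold psi
        rw [hfl]
      have e2 : Gp D.U ch A.z R p z = fG D ch A.z R p (cd (p.1⁻¹ • z)) := rfl
      rw [e1, e2]
      exact hz)
    refine le_trans (le_of_eq ?_) this
    congr 1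
    refine integral_congr_ae (Eventually.of_forall fun z => ?_)
    show conj (Gp D.U ch A.z R p z) * Gp D.U ch A.z R q z - conj (psi D ch A.z ζ2 R 0 p z) * Gp D.U ch A.z R q z = conj (Gp D.U ch A.z R p z - psi D ch A.z ζ2 R 0 p z) * Gp D.U ch A.z R q z
    rw [map_sub]
    ring
  have s3 : (1 : ℝ) + 8 * R ^ (1 / 2 : ℝ) ≤ R ^ (15 / 8 : ℝ) := by
    have e1 : R ^ (15 / 8 : ℝ) = R ^ (1 / 2 : ℝ) * R ^ (11 / 8 : ℝ) := by rw [← Real.rpow_add h0]; norm_num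
    have e2 : (65536 : ℝ) ≤ R ^ (11 / 8 : ℝ) := by
      have := VAM_pw R 1 (11 / 8) hR (by norm_num)
      rw [Real.rpow_one] at this
      linarith
    have e3 : (1 : ℝ) ≤ R ^ (1 / 2 : ℝ) := Real.one_le_rpow (by linarith) (by norm_num)
    rw [e1]
    nlinarith
  rw [hb]
  have := norm_add_le (pr D ch A R p q - ∫ z : ℍ, conj (Gp D.U ch A.z R p z) * Gp D.U ch A.z R q z) ((∫ z : ℍ, conj (Gp D.U ch A.z R p z) * Gp D.U ch A.z R q z) - ∫ z : ℍ, conj (psi D ch A.z ζ2 R 0 p z) * Gp D.U ch A.z R q z)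
  rw [sub_add_sub_cancel] at this
  linarith

theorem VAM_c1 (G : SL(2, ℝ) × ℝ → ℍ → ℂ) (qc : Continuous (fun x : (SL(2, ℝ) × ℝ) × ℍ => G x.1 x.2)) (x : SL(2, ℝ) × ℝ) : Continuous (G x) := by
  have h3 : Continuous (fun z : ℍ => (x, z)) := by fun_prop
  exact qc.comp h3

theorem VAM_QS (hVQS : VQS_stmt) (ch : ℝ → ℝ) (ζ : ℝ) (hch : CH ch) (h0 : 0 < ζ) (h1 : ζ ≤ 1 / 8) : ∃ R0 : ℝ, 1 ≤ R0 ∧ ∀ (R : ℝ) (U : ℍ → ℝ), R0 ≤ R → Dm ⊥ univ → PU ⊥ U →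
    (∀ x, Continuous (Gp U ch ζ R x)) ∧ ∀ x z, Gp U ch ζ R x z ≠ 0 → dist (x.1 • I : ℍ) z ≤ 2 * R ^ (-(1 / 2) + ζ) := by
  obtain ⟨R0, hR0, h⟩ := hVQS ch ζ hch h0 h1
  refine ⟨R0, hR0, fun R U hR hD hU => ?_⟩
  have h2 := h R ⊥ univ U hR hD hU
  have qc := h2.1
  have qb := h2.2.1
  constructor
  · intro x
    exact VAM_c1 (Gp U ch ζ R) qc x
  · intro x z
    exact (qb x z).2

theorem VAM_proof (hVAD : VAD_stmt) (hVUS : VUS_stmt) (hVUM : VUM_stmt) (hVUL : VUL_stmt) (hVD0 : VD0_stmt) (hVNP : VNP_stmt) (hVFM : VFM_stmt)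
    (hVUB : VUB_stmt) (hVOX : VOX_stmt) (hVQS : VQS_stmt) (hVFR : VFR_stmt) : VAM_stmt := by
  obtain ⟨c1, hc1, hAD⟩ := hVAD
  obtain ⟨c2, hc2, hUS⟩ := hVUS
  obtain ⟨c3, hc3, hUM⟩ := hVUM
  obtain ⟨c4, hc4, hUL⟩ := hVUL
  obtain ⟨c5, hc5, hD0⟩ := hVD0
  obtain ⟨c6, hc6, hNP⟩ := hVNP
  obtain ⟨c7, hc7, hFM⟩ := hVFM
  obtain ⟨oxO, oxD, oxP, oxH, oxW, oxPsi⟩ := hVOX
  obtain ⟨K, hK⟩ : ∃ K : ℝ, K = 8 * (c1 + c2 + c3 + c4 + c5 + c6 + c7) := ⟨_, rfl⟩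
  have hK8 : 8 ≤ K := by rw [hK]; linarith
  have hK0 : 0 < K := by linarith
  have hKK : K ≤ K ^ 2 := by nlinarith
  refine ⟨100 * K ^ 2, by nlinarith, ?_⟩
  intro ch B A hch hA
  obtain ⟨hz, hzz, hz1, hz2, hz264, hme, hKz1, hm⟩ := VAM_par K (100 * K ^ 2) A hK8 (by nlinarith) hA
  have hz10 : 0 < A.z1 := by linarith
  have adm : ∀ c', c' ≤ K → Adm c' A := fun c' hc' => VAM_adm (100 * K ^ 2) c' A (by nlinarith) (by nlinarith) hA
  have he0 : 0 ≤ (A.m : ℝ) * A.e3 := mul_nonneg (by linarith) hA.e3.le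
  have hK1 : 0 < 1 / K := by positivity
  have hK18 : 1 / K ≤ 1 / 8 := by
    rw [div_le_div_iff₀ hK0 (by norm_num)]
    linarith
  have cK : ∀ c', 8 * c' ≤ K → c' * (1 / K) ≤ 1 / 8 := by
    intro c' hc'
    rw [mul_one_div, div_le_div_iff₀ hK0 (by norm_num)]
    linarith
  have rg : ∀ c', 1 ≤ c' → 8 * c' ≤ K → Rg c' ((A.m : ℝ) * A.e3) A.z (1 / K) := by
    intro c' hc1' hc'
    refine ⟨he0, hz, hzz.trans hz1, ?_, ?_⟩
    · refine le_trans (mul_le_mul_of_nonneg_right (by linarith : c' ≤ K) he0) hme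
    · have := cK c' hc'
      linarith
  obtain ⟨R1, hR1, hAD⟩ := hAD ch B A _ (1 / K) hch (adm c1 (by linarith)) (rg c1 hc1 (by linarith)) hz1
  obtain ⟨R2, hR2, hUS⟩ := hUS ch B A hch (adm c2 (by linarith))
  obtain ⟨R3, hR3, hUM⟩ := hUM ch B A hch (adm c3 (by linarith))
  obtain ⟨R4, hR4, hUL⟩ := hUL ch 0 A.z A.z1 0 B hch ⟨le_rfl, hz, hzz, by rw [mul_zero]; exact hz10.le, by nlinarith⟩
  obtain ⟨R5, hR5, hD0⟩ := hD0 ch 0 _ A.z (1 / K) (1 / K) 0 hch (rg c5 hc5 (by linarith)) le_rfl (by have := cK c5 (by linarith); linarith)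
  obtain ⟨R6, hR6, hNP⟩ := hNP ch _ A.z (1 / K) B hch (rg c6 hc6 (by linarith))
  obtain ⟨R7, hR7, hFM⟩ := hFM ch 0 _ A.z (1 / K) B hch (rg c7 hc7 (by linarith))
  obtain ⟨R8, hR8, hQS⟩ := VAM_QS hVQS ch A.z hch hz (by linarith)
  obtain ⟨R9, hR9, hnum⟩ := VAM_num A.m
  refine ⟨1 / K, R1 + R2 + R3 + R4 + R5 + R6 + R7 + R8 + R9, hz1, hK1, hK18, by linarith, ?_⟩
  intro R δ Γ D p q hR hD hδ hp hq
  obtain ⟨hRb, hn1, hn2⟩ := hnum R (by linarith)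
  have hR0 : (0 : ℝ) < R := by linarith
  have hlog : 0 ≤ Real.log R := Real.log_nonneg (by linarith)
  have hDb : OKD ⊥ δ B D := oxO Γ δ B D hD
  have hPU : PU ⊥ D.U := (hVUB ⊥ δ B D.U hDb.pot hδ).1
  have hq14 := VAM_q R hRb
  have hq140 : 0 < R ^ (-(1 / 4) : ℝ) := Real.rpow_pos_of_pos hR0 _
  have hwin : ∀ c x, c ≤ 2 → x ∈ Wi c R → |x| ≤ 1 / 8 := by
    intro c x hc hx
    have h1 : |x| ≤ c * R ^ (-(1 / 4) : ℝ) := abs_le.mpr hx
    nlinarith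
  have hpow : ∀ η : ℝ, η ≤ 1 / 4 → R ^ (-(1 / 2) + η) ≤ 1 / 4 := by
    intro η hη
    have := VAM_pw R (-(1 / 2) + η) (-(1 / 4)) hRb (by linarith)
    linarith
  obtain ⟨cG, sG⟩ := hQS R D.U (by linarith) oxD hPU
  have nG : ∀ x ∈ GW 2 R, ∫ z : ℍ, ‖Gp D.U ch A.z R x z‖ ≤ 8 * R ^ (1 / 2 : ℝ) := by
    intro x hx
    exact (hNP R δ 0 ⊥ D x (by linarith) hDb hδ (hwin 2 _ le_rfl hx.2) le_rfl (mul_nonneg he0 hlog)).2.2.1
  have htm : ∀ k : ℕ, k ≤ A.m → 0 ≤ (k : ℝ) * A.sg R ∧ (k : ℝ) * A.sg R ≤ ((A.m : ℝ) * A.e3) * Real.log R := by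
    intro k hk
    have hk' : (k : ℝ) ≤ A.m := by exact_mod_cast hk
    have h1 : 0 ≤ A.sg R := mul_nonneg hA.e3.le hlog
    refine ⟨mul_nonneg (Nat.cast_nonneg k) h1, ?_⟩
    have : (k : ℝ) * A.sg R ≤ A.m * A.sg R := mul_le_mul_of_nonneg_right hk' h1
    have e1 : (A.m : ℝ) * A.sg R = ((A.m : ℝ) * A.e3) * Real.log R := by unfold Prm.sg; ring
    rw [← e1]
    exact this
  -- the second bound
  have hpsib : ∀ x : SL(2, ℝ) × ℝ, |x.2| ≤ 1 / 8 → ∀ t : ℝ, 0 ≤ t → t ≤ ((A.m : ℝ) * A.e3) * Real.log R → ∀ z, ‖psi D ch A.z (1 / K) R t x z‖ ≤ R ^ (3 / 2 : ℝ) * ‖D.a x.2 t x.1‖ := by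
    intro x hx t ht0 ht
    exact (hNP R δ t ⊥ D x (by linarith) hDb hδ hx ht0 ht).2.2.2.1
  have hp8 : |p.2| ≤ 1 / 8 := hwin (3 / 2) _ (by norm_num) hp
  have iG : Integrable (Gp D.U ch A.z R q) := VAM_intg _ (cG q) _ _ (sG q)
  refine ⟨?_, ?_⟩
  swap
  · have h1 := VAM_bd (psi D ch A.z (1 / K) R (A.tu R) p) (Gp D.U ch A.z R q) _ iG (hpsib p hp8 (A.tu R) (htm A.m le_rfl).1 (htm A.m le_rfl).2)
    refine h1.trans ?_
    have h2 := nG q hq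
    have h3 : R ^ (3 / 2 : ℝ) * R ^ (1 / 2 : ℝ) = R ^ 2 := by
      rw [← Real.rpow_add hR0, ← Real.rpow_natCast]
      norm_num
    have h4 : 0 ≤ R ^ (3 / 2 : ℝ) * ‖D.a p.2 (A.tu R) p.1‖ := by positivity
    calc R ^ (3 / 2 : ℝ) * ‖D.a p.2 (A.tu R) p.1‖ * ∫ z : ℍ, ‖Gp D.U ch A.z R q z‖ ≤ R ^ (3 / 2 : ℝ) * ‖D.a p.2 (A.tu R) p.1‖ * (8 * R ^ (1 / 2 : ℝ)) := mul_le_mul_of_nonneg_left h2 h4
      _ = 8 * (R ^ (3 / 2 : ℝ) * R ^ (1 / 2 : ℝ)) * ‖D.a p.2 (A.tu R) p.1‖ := by ring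
      _ = 8 * R ^ 2 * ‖D.a p.2 (A.tu R) p.1‖ := by rw [h3]
  · obtain ⟨kus, kusm, -, -, -, -, -⟩ := hUM R δ ⊥ univ D (by linarith) oxD hDb hδ
    obtain ⟨su, -, -, -⟩ := hUS R δ ⊥ D (by linarith) hDb hδ
    have hr0 : 0 ≤ A.r R := Real.rpow_nonneg hR0.le _
    have hcore := VAM_core D ch A R (R ^ (c2 * A.z2)) (R ^ (15 / 8 : ℝ))
      (fun k x y => ∫ z : ℍ, conj (psi D ch A.z (1 / K) R ((k : ℝ) * A.sg R) x z) * Gp D.U ch A.z R y z)
      (Real.one_le_rpow (by linarith) (by positivity)) (Real.rpow_nonneg hR0.le _) hr0 (by nlinarith) kus.meas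
      (fun k => ⟨(kusm k).meas, (kusm k).bdd⟩) su ?_ ?_ ?_ A.m le_rfl p q ?_ hq
    · refine hcore.trans ?_
      have hpm : (R ^ (c2 * A.z2)) ^ A.m = R ^ (c2 * A.z2 * A.m) := by
        rw [← Real.rpow_natCast, ← Real.rpow_mul hR0.le]
      rw [hpm]
      have hexp : c2 * A.z2 * A.m ≤ 1 / 100 := by
        have h1 := hA.up
        have h2 : 0 < (A.m : ℝ) * A.z2 := mul_pos (by linarith) hz2
        have h3 : c2 ≤ K ^ 2 := by linarith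
        nlinarith
      have h4 : R ^ (c2 * A.z2 * A.m) ≤ R ^ (1 / 100 : ℝ) := VAM_pw R _ _ hRb hexp
      have h5 : R ^ (3 / 200 : ℝ) * R ^ (1 / 100 : ℝ) * R ^ (15 / 8 : ℝ) = R ^ (19 / 10 : ℝ) := by
        rw [← Real.rpow_add hR0, ← Real.rpow_add hR0]
        norm_num
      rw [← h5]
      refine mul_le_mul_of_nonneg_right ?_ (Real.rpow_nonneg hR0.le _)
      exact mul_le_mul hn1 h4 (Real.rpow_nonneg hR0.le _) (Real.rpow_nonneg hR0.le _)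
    · intro k y hk hy
      obtain ⟨ht0, ht⟩ := htm k hk
      have hfa := (hFM R δ ((k : ℝ) * A.sg R) ⊥ D (by linarith) hDb hδ (by rw [abs_of_nonneg ht0]; exact ht)).1
      have h7 : c7 * (1 / K) ≤ 1 / 8 := cK c7 (by linarith)
      have hfr := hVFR ⊥ univ δ B D 0 (c7 * (1 / K)) (R ^ (3 / 2 + c7 * (1 / K))) R ((k : ℝ) * A.sg R) _ oxD hDb hδ (by positivity) (by linarith)
        (Real.rpow_nonneg hR0.le _) (hpow _ (by linarith)) (by linarith) (by linarith) hfa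
      have hFH : FH ⊥ univ (Gp D.U ch A.z R y) := by
        refine oxH _ (cG y) ⟨2 * R ^ (-(1 / 2) + A.z) + dist (y.1 • I : ℍ) I, fun z hz => ?_⟩
        have h1 := sG y z hz
        have h2 := dist_triangle z (y.1 • I : ℍ) I
        have h3 := dist_comm z (y.1 • I : ℍ)
        linarith
      have hFP := hfr.2.2.2.2.1 _ hFH
      refine ⟨_, hFP.meas, hFP.bdd, ?_⟩
      intro x hx
      show (GW 2 R).indicator (fun p => ∫ z : ℍ, Gp D.U ch A.z R y z * conj (pF D ((k : ℝ) * A.sg R) (pv D ch A.z (1 / K) R ((k : ℝ) * A.sg R)) p z)) x = _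
      rw [indicator_of_mem hx]
      refine integral_congr_ae (Eventually.of_forall fun z => ?_)
      show Gp D.U ch A.z R y z * conj (pF D ((k : ℝ) * A.sg R) (pv D ch A.z (1 / K) R ((k : ℝ) * A.sg R)) x z) = conj (psi D ch A.z (1 / K) R ((k : ℝ) * A.sg R) x z) * Gp D.U ch A.z R y z
      rw [mul_comm]
      rfl
    · intro k x y hk hx hy
      obtain ⟨ht0, ht⟩ := htm k (by omega)
      obtain ⟨ht1, ht2⟩ := htm (k + 1) hk
      have e1 : (((k + 1 : ℕ) : ℝ)) * A.sg R = A.sg R + (k : ℝ) * A.sg R := by push_cast; ring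
      rw [e1] at ht2
      have := hAD R δ ((k : ℝ) * A.sg R) ⊥ D x y (by linarith) hDb hδ hx hy ht0 ht2
      show ‖(∫ w, us D ch A R x w * (∫ z : ℍ, conj (psi D ch A.z (1 / K) R ((k : ℝ) * A.sg R) w z) * Gp D.U ch A.z R y z) ∂mP) -
        ∫ z : ℍ, conj (psi D ch A.z (1 / K) R (((k + 1 : ℕ) : ℝ) * A.sg R) x z) * Gp D.U ch A.z R y z‖ ≤ _
      rw [e1]
      exact this
    · intro x y hx hy
      have hx8 : |x.2| ≤ 1 / 8 := hwin 2 _ le_rfl hx.2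
      show ‖pr D ch A R x y - ∫ z : ℍ, conj (psi D ch A.z (1 / K) R (((0 : ℕ) : ℝ) * A.sg R) x z) * Gp D.U ch A.z R y z‖ ≤ _
      rw [Nat.cast_zero, zero_mul]
      refine VAM_base D ch A R (1 / K) _ x y hRb rfl hDb.fl0 hx hy cG _ _ (sG y) ?_ (nG y hy) ?_ ?_
      · exact (oxPsi D ch A.z (1 / K) R 0 δ ⊥ B x hch hK1 hK18 (by linarith) hDb hδ hx8 (hpow _ (by linarith))).1.cont
      · intro hnb
        have hul := (hUL R δ 0 ⊥ D x y (by linarith) hDb hδ le_rfl (by rw [zero_mul]) hx hy).2.2.2.2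
        have h1 : ¬Nb (R ^ (-(1 / 2) + c4 * A.z1)) x y := by
          intro h
          apply hnb
          refine VAM_nb _ _ ?_ x y h
          refine VAM_pw R _ _ hRb ?_
          have : c4 * A.z1 ≤ K * A.z1 := mul_le_mul_of_nonneg_right (by linarith) hz10.le
          linarith
        have h2 := hul h1
        rw [neg_zero, Real.rpow_zero] at h2
        exact h2
      · intro v
        obtain ⟨P, -, -, hP, hPe⟩ := (hD0 R δ ⊥ B D x 0 (by linarith) hDb hδ hx8 (by rw [abs_zero]; exact mul_nonneg he0 hlog)).1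
        have h1 : pv D ch A.z (1 / K) R 0 x v - fG D ch A.z R x v = Complex.exp (((R * rho D.U x.2 x.1 * v.re : ℝ) : ℂ) * Complex.I) * P v := hPe v
        have h2 := hP 0 le_rfl v
        rw [norm_iteratedFDeriv_zero, neg_zero, Real.rpow_zero, pow_zero, one_mul] at h2
        have h3 : ‖Complex.exp (((R * rho D.U x.2 x.1 * v.re : ℝ) : ℂ) * Complex.I)‖ = 1 := Complex.norm_exp_ofReal_mul_I _
        rw [h1, norm_mul, h3, one_mul]
        exact h2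
    · have h1 : |p.2| ≤ 3 / 2 * R ^ (-(1 / 4) : ℝ) := abs_le.mpr hp
      have h2 : (A.m : ℝ) * A.r R ≤ 7 / 16 * R ^ (-(1 / 4) : ℝ) := by
        have e1 : A.r R = R ^ (-(1 / 4) + A.z2) * R ^ (-(1 / 4) : ℝ) := by
          unfold Prm.r
          rw [← Real.rpow_add hR0]
          congr 1
          ring
        have e2 : R ^ (1 / 8 : ℝ) * R ^ (-(1 / 4) + A.z2) ≤ 1 := by
          rw [← Real.rpow_add hR0]
          exact Real.rpow_le_one_of_one_le_of_nonpos (by linarith) (by linarith)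
        have e3 : 0 < R ^ (-(1 / 4) + A.z2) := Real.rpow_pos_of_pos hR0 _
        have e4 : (A.m : ℝ) * R ^ (-(1 / 4) + A.z2) ≤ 7 / 16 := by nlinarith
        rw [e1, ← mul_assoc]
        exact mul_le_mul_of_nonneg_right e4 hq140.le
      linarith

end

end Pool.Agent.VQ
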