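import Pool.Agent.helper84.VQ.Spec4a

/-!
# Row vq:SH4: short times
-/

set_option autoImplicit false

open scoped MatrixGroups ContDiff Topology UpperHalfPlane ComplexConjugate ENNReal
open UpperHalfPlane MeasureTheory Filter Set

namespace Pool.Agent.VQ

open Pool.Agent.RS
open Pool.Agent.VQE (nm)

theorem SH4_XX (U : ℍ → ℝ) (E : ℝ) (g : SL(2, ℝ)) (A : Matrix (Fin 2) (Fin 2) ℝ) (i : Fin 2) :
    (A * XX U E g) i 0 = A i 0 * (rho U E g / 2) - A i 1 * (kap U E g / 2) ∧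
    (A * XX U E g) i 1 = A i 0 * (kap U E g / 2) - A i 1 * (rho U E g / 2) := by
  constructor <;> rw [Matrix.mul_apply, Fin.sum_univ_two] <;> unfold XX A0 K0 <;> simp <;> ring

theorem SH4_lin {d u v P Q U V : ℝ} (hu : |u| ≤ U) (hv : |v| ≤ V) (hU : 0 ≤ U) (hV : 0 ≤ V) (hP : |P - 1| ≤ d)
    (hQ : |Q| ≤ d) : |u * (P / 2) - v * (Q / 2)| ≤ U * ((1 + d) / 2) + V * (d / 2) := by
  have hP2 : |P / 2| ≤ (1 + d) / 2 := by
    rw [abs_le] at hP ⊢
    have hd : 0 ≤ d := (abs_nonneg _).trans hQ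
    constructor <;> linarith [hP.1, hP.2]
  have hQ2 : |Q / 2| ≤ d / 2 := by
    rw [abs_le] at hQ ⊢
    constructor <;> linarith [hQ.1, hQ.2]
  have h1 : |u * (P / 2)| ≤ U * ((1 + d) / 2) := by
    rw [abs_mul]
    exact mul_le_mul hu hP2 (abs_nonneg _) hU
  have h2 : |v * (Q / 2)| ≤ V * (d / 2) := by
    rw [abs_mul]
    exact mul_le_mul hv hQ2 (abs_nonneg _) hV
  rw [abs_le] at h1 h2 ⊢
  constructor <;> linarith [h1.1, h1.2, h2.1, h2.2]

theorem SH4_eps {ε z b : ℝ} (hε : |ε| = 1) (hz : |z| < b) : |ε * z| < b := by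
  rw [abs_mul, hε, one_mul]
  exact hz

theorem SH4_core (d ε : ℝ) (a b c e P Q : ℝ → ℝ) (hd0 : 0 < d) (hd : d ≤ 1 / 30) (hε : |ε| = 1)
    (hP : ∀ t, |P t - 1| ≤ d) (hQ : ∀ t, |Q t| ≤ d)
    (ha : ∀ t, HasDerivAt a (ε * (a t * (P t / 2) - b t * (Q t / 2))) t)
    (hb : ∀ t, HasDerivAt b (ε * (a t * (Q t / 2) - b t * (P t / 2))) t)
    (hc : ∀ t, HasDerivAt c (ε * (c t * (P t / 2) - e t * (Q t / 2))) t)
    (he : ∀ t, HasDerivAt e (ε * (c t * (Q t / 2) - e t * (P t / 2))) t)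
    (a0 : a 0 = 1) (b0 : b 0 = 0) (c0 : c 0 = 0) (e0 : e 0 = 1) :
    ∀ t, 0 ≤ t → t ≤ 1 → (|a t - 1| ≤ 2 * t ∧ |b t| ≤ 2 * t ∧ |c t| ≤ 2 * t ∧ |e t - 1| ≤ 2 * t) ∧
      |b t| ≤ 4 * d * t ∧ |c t| ≤ 4 * d * t := by
  have hder : ∀ t, HasDerivAt (fun t => ((a t - 1, b t), (c t, e t - 1)))
      ((ε * (a t * (P t / 2) - b t * (Q t / 2)), ε * (a t * (Q t / 2) - b t * (P t / 2))),
        (ε * (c t * (P t / 2) - e t * (Q t / 2)), ε * (c t * (Q t / 2) - e t * (P t / 2)))) t := fun t =>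
    (((ha t).sub_const 1).prodMk (hb t)).prodMk ((hc t).prodMk ((he t).sub_const 1))
  have key := image_norm_le_of_norm_deriv_right_lt_deriv_boundary (a := 0) (b := 1)
    (f := fun t => ((a t - 1, b t), (c t, e t - 1)))
    (f' := fun t => ((ε * (a t * (P t / 2) - b t * (Q t / 2)), ε * (a t * (Q t / 2) - b t * (P t / 2))),
        (ε * (c t * (P t / 2) - e t * (Q t / 2)), ε * (c t * (Q t / 2) - e t * (P t / 2)))))
    (B := fun t => 2 * t) (B' := fun _ => 2)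
    (fun t _ => (hder t).continuousAt.continuousWithinAt) (fun t _ => (hder t).hasDerivWithinAt)
    (by simp [a0, b0, c0, e0]) (fun t => ((hasDerivAt_id t).const_mul 2).congr_deriv (by ring))
    (by
      intro t ht hn
      have hn' : ‖(((a t - 1, b t), (c t, e t - 1)) : (ℝ × ℝ) × (ℝ × ℝ))‖ ≤ 2 := by
        have h2 := ht.2
        change ‖(((a t - 1, b t), (c t, e t - 1)) : (ℝ × ℝ) × (ℝ × ℝ))‖ = 2 * t at hn
        rw [hn]
        linarith
      rw [norm_prod_le_iff, norm_prod_le_iff, norm_prod_le_iff] at hn'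
      obtain ⟨⟨h1, h2⟩, h3, h4⟩ := hn'
      simp only [Real.norm_eq_abs] at h1 h2 h3 h4
      have ha' : |a t| ≤ 3 := by
        rw [abs_le] at h1 ⊢
        constructor <;> linarith [h1.1, h1.2]
      have he' : |e t| ≤ 3 := by
        rw [abs_le] at h4 ⊢
        constructor <;> linarith [h4.1, h4.2]
      have hb' : |b t| ≤ 3 := h2.trans (by norm_num)
      have hc' : |c t| ≤ 3 := h3.trans (by norm_num)
      have hlt : (3 : ℝ) * ((1 + d) / 2) + 3 * (d / 2) < 2 := by linarith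
      have r1 := (SH4_lin ha' hb' (by norm_num) (by norm_num) (hP t) (hQ t)).trans_lt hlt
      have r2 := (SH4_lin hb' ha' (by norm_num) (by norm_num) (hP t) (hQ t)).trans_lt hlt
      have r3 := (SH4_lin hc' he' (by norm_num) (by norm_num) (hP t) (hQ t)).trans_lt hlt
      have r4 := (SH4_lin he' hc' (by norm_num) (by norm_num) (hP t) (hQ t)).trans_lt hlt
      rw [abs_sub_comm] at r2 r4
      change ‖(((ε * (a t * (P t / 2) - b t * (Q t / 2)), ε * (a t * (Q t / 2) - b t * (P t / 2))),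
        (ε * (c t * (P t / 2) - e t * (Q t / 2)), ε * (c t * (Q t / 2) - e t * (P t / 2)))) : (ℝ × ℝ) × (ℝ × ℝ))‖ < 2
      rw [Prod.norm_def, Prod.norm_def, Prod.norm_def]
      simp only [Real.norm_eq_abs]
      exact max_lt (max_lt (SH4_eps hε r1) (SH4_eps hε r2)) (max_lt (SH4_eps hε r3) (SH4_eps hε r4)))
  have hA : ∀ t, 0 ≤ t → t ≤ 1 → |a t - 1| ≤ 2 * t ∧ |b t| ≤ 2 * t ∧ |c t| ≤ 2 * t ∧ |e t - 1| ≤ 2 * t := by
    intro t ht0 ht1
    have h := key ⟨ht0, ht1⟩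
    change ‖(((a t - 1, b t), (c t, e t - 1)) : (ℝ × ℝ) × (ℝ × ℝ))‖ ≤ 2 * t at h
    rw [norm_prod_le_iff, norm_prod_le_iff, norm_prod_le_iff] at h
    obtain ⟨⟨h1, h2⟩, h3, h4⟩ := h
    exact ⟨h1, h2, h3, h4⟩
  have hlt2 : ∀ t : ℝ, 0 ≤ t → t < 1 → 4 * d * t * ((1 + d) / 2) + 3 * (d / 2) < 4 * d := by
    intro t ht0 ht1
    have h1 : 4 * d * t ≤ 4 * d := by nlinarith
    have h2 : 4 * d * t * ((1 + d) / 2) ≤ 4 * d * ((1 + 1 / 30) / 2) := by
      refine mul_le_mul h1 (by linarith) (by linarith) (by linarith)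
    nlinarith
  have keyb := image_norm_le_of_norm_deriv_right_lt_deriv_boundary (a := 0) (b := 1) (f := b)
    (f' := fun t => ε * (a t * (Q t / 2) - b t * (P t / 2)))
    (B := fun t => 4 * d * t) (B' := fun _ => 4 * d)
    (fun t _ => (hb t).continuousAt.continuousWithinAt) (fun t _ => (hb t).hasDerivWithinAt)
    (by simp [b0]) (fun t => ((hasDerivAt_id t).const_mul (4 * d)).congr_deriv (by ring))
    (by
      intro t ht hn
      have hn' : |b t| ≤ 4 * d * t := hn.le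
      have h1 := (hA t ht.1 ht.2.le).1
      have ha' : |a t| ≤ 3 := by
        have h2 := ht.2
        rw [abs_le] at h1 ⊢
        constructor <;> linarith [h1.1, h1.2]
      have r := SH4_lin hn' ha' (mul_nonneg (by linarith) ht.1) (by norm_num) (hP t) (hQ t)
      rw [abs_sub_comm] at r
      exact SH4_eps hε (r.trans_lt (hlt2 t ht.1 ht.2)))
  have keyc := image_norm_le_of_norm_deriv_right_lt_deriv_boundary (a := 0) (b := 1) (f := c)
    (f' := fun t => ε * (c t * (P t / 2) - e t * (Q t / 2)))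
    (B := fun t => 4 * d * t) (B' := fun _ => 4 * d)
    (fun t _ => (hc t).continuousAt.continuousWithinAt) (fun t _ => (hc t).hasDerivWithinAt)
    (by simp [c0]) (fun t => ((hasDerivAt_id t).const_mul (4 * d)).congr_deriv (by ring))
    (by
      intro t ht hn
      have hn' : |c t| ≤ 4 * d * t := hn.le
      have h1 := (hA t ht.1 ht.2.le).2.2.2
      have he' : |e t| ≤ 3 := by
        have h2 := ht.2
        rw [abs_le] at h1 ⊢
        constructor <;> linarith [h1.1, h1.2]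
      have r := SH4_lin hn' he' (mul_nonneg (by linarith) ht.1) (by norm_num) (hP t) (hQ t)
      exact SH4_eps hε (r.trans_lt (hlt2 t ht.1 ht.2)))
  intro t ht0 ht1
  exact ⟨hA t ht0 ht1, keyb ⟨ht0, ht1⟩, keyc ⟨ht0, ht1⟩⟩

theorem SH4_ent (g h : SL(2, ℝ)) (i j : Fin 2) :
    (g⁻¹ * h).1 i j = (g⁻¹).1 i 0 * h.1 0 j + (g⁻¹).1 i 1 * h.1 1 j := by
  rw [Matrix.SpecialLinearGroup.coe_mul, Matrix.mul_apply, Fin.sum_univ_two]

theorem SH4_d {d : ℝ} {D : Dyn} (hD : FE d D) {E : ℝ} (hE : |E| ≤ d / 4) (g : SL(2, ℝ)) (i : Fin 2) (t : ℝ) :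
    HasDerivAt (fun s => (g⁻¹ * D.fl E s g).1 i 0) ((g⁻¹ * D.fl E t g).1 i 0 * (rho D.U E (D.fl E t g) / 2) -
      (g⁻¹ * D.fl E t g).1 i 1 * (kap D.U E (D.fl E t g) / 2)) t ∧
    HasDerivAt (fun s => (g⁻¹ * D.fl E s g).1 i 1) ((g⁻¹ * D.fl E t g).1 i 0 * (kap D.U E (D.fl E t g) / 2) -
      (g⁻¹ * D.fl E t g).1 i 1 * (rho D.U E (D.fl E t g) / 2)) t := by
  have e0 : (fun s => (g⁻¹ * D.fl E s g).1 i 0) =
      fun s => (g⁻¹).1 i 0 * (D.fl E s g).1 0 0 + (g⁻¹).1 i 1 * (D.fl E s g).1 1 0 :=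
    funext fun s => SH4_ent g _ i 0
  have e1 : (fun s => (g⁻¹ * D.fl E s g).1 i 1) =
      fun s => (g⁻¹).1 i 0 * (D.fl E s g).1 0 1 + (g⁻¹).1 i 1 * (D.fl E s g).1 1 1 :=
    funext fun s => SH4_ent g _ i 1
  have h := fun j k => hD.der E t g hE j k
  constructor
  · rw [e0]
    have h0 := ((h 0 0).const_mul ((g⁻¹).1 i 0)).add ((h 1 0).const_mul ((g⁻¹).1 i 1))
    refine h0.congr_deriv ?_
    rw [(SH4_XX _ _ _ _ _).1, (SH4_XX _ _ _ _ _).1, SH4_ent, SH4_ent]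
    ring
  · rw [e1]
    have h0 := ((h 0 1).const_mul ((g⁻¹).1 i 0)).add ((h 1 1).const_mul ((g⁻¹).1 i 1))
    refine h0.congr_deriv ?_
    rw [(SH4_XX _ _ _ _ _).2, (SH4_XX _ _ _ _ _).2, SH4_ent, SH4_ent]
    ring

theorem SH4_neg {F : ℝ → ℝ} {F' t : ℝ} (h : HasDerivAt F F' (-t)) : HasDerivAt (fun s => F (-s)) (-1 * F') t := by
  have h1 := HasDerivAt.comp t h (hasDerivAt_neg t)
  exact h1.congr_deriv (by ring)

theorem SH4_proof : SH4_stmt := by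
  intro d D hD hd0 hd E s g hE hs
  have h0 : g⁻¹ * D.fl E 0 g = 1 := by rw [hD.zero, inv_mul_cancel]
  have hP := fun t => hD.ro E (D.fl E t g) hE
  have hQ := fun t => hD.ka E (D.fl E t g) hE
  have key : (|(g⁻¹ * D.fl E s g).1 0 0 - 1| ≤ 2 * |s| ∧ |(g⁻¹ * D.fl E s g).1 0 1| ≤ 2 * |s| ∧
      |(g⁻¹ * D.fl E s g).1 1 0| ≤ 2 * |s| ∧ |(g⁻¹ * D.fl E s g).1 1 1 - 1| ≤ 2 * |s|) ∧
      |(g⁻¹ * D.fl E s g).1 0 1| ≤ 4 * d * |s| ∧ |(g⁻¹ * D.fl E s g).1 1 0| ≤ 4 * d * |s| := by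
    rcases le_total 0 s with h | h
    · rw [abs_of_nonneg h] at hs ⊢
      exact SH4_core d 1 (fun s => (g⁻¹ * D.fl E s g).1 0 0) (fun s => (g⁻¹ * D.fl E s g).1 0 1)
        (fun s => (g⁻¹ * D.fl E s g).1 1 0) (fun s => (g⁻¹ * D.fl E s g).1 1 1)
        (fun s => rho D.U E (D.fl E s g)) (fun s => kap D.U E (D.fl E s g)) hd0 hd abs_one hP hQ
        (fun t => (SH4_d hD hE g 0 t).1.congr_deriv (one_mul _).symm)
        (fun t => (SH4_d hD hE g 0 t).2.congr_deriv (one_mul _).symm)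
        (fun t => (SH4_d hD hE g 1 t).1.congr_deriv (one_mul _).symm)
        (fun t => (SH4_d hD hE g 1 t).2.congr_deriv (one_mul _).symm)
        (by simp [h0]) (by simp [h0]) (by simp [h0]) (by simp [h0]) s h hs
    · rw [abs_of_nonpos h] at hs ⊢
      have k := SH4_core d (-1) (fun s => (g⁻¹ * D.fl E (-s) g).1 0 0) (fun s => (g⁻¹ * D.fl E (-s) g).1 0 1)
        (fun s => (g⁻¹ * D.fl E (-s) g).1 1 0) (fun s => (g⁻¹ * D.fl E (-s) g).1 1 1)
        (fun s => rho D.U E (D.fl E (-s) g)) (fun s => kap D.U E (D.fl E (-s) g)) hd0 hd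
        (by rw [abs_neg, abs_one]) (fun t => hP (-t)) (fun t => hQ (-t))
        (fun t => SH4_neg (SH4_d hD hE g 0 (-t)).1) (fun t => SH4_neg (SH4_d hD hE g 0 (-t)).2)
        (fun t => SH4_neg (SH4_d hD hE g 1 (-t)).1) (fun t => SH4_neg (SH4_d hD hE g 1 (-t)).2)
        (by simp [h0]) (by simp [h0]) (by simp [h0]) (by simp [h0]) (-s) (by linarith) hs
      simp only [neg_neg] at k
      exact k
  obtain ⟨⟨k1, k2, k3, k4⟩, k5, k6⟩ := key
  exact ⟨max_le (max_le k1 k2) (max_le k3 k4), k5, k6⟩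

end Pool.Agent.VQ
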